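import Pool.Agent.H992.PM.JFin

/-!
# Joint Gaussian moments from upper bounds up to constants (MP_a28cf0_nt)

The setting is that of `Pool.Agent.Results.MP_a28cf0_nt.JointRandomWaves`: `HP` is the hyperbolic
plane, `Ω ⊆ HP` an open set of finite area (for instance a fundamental domain of the modular group),
and `u_0, …, u_d` are sequences of smooth real eigenfunctions on `HP`, each quantum ergodic over `Ω`
(a theorem for Hecke-Maass cusp forms: Lindenstrauss, Soundararajan), with any frequencies.
`TF Ω ψ` are the smooth functions `ψ` with compact support in `Ω`. For a polynomial `Q` in variables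
`(i, j)` and points `w i j` of the plane `jpMean Ω ψ λ u w Q` is the mean over all rotations and
reflections `R` of `∫_Ω ψ(z) Q (…, u_i (z + y λ_i^{-1/2} R w_{ij}), …) dμ(z)`: the multi-point
moments of the family, each function at the scale of its wavelength. For `w = 0` and
`Q = ∏ x_{i0}^{a_i}` it is `∫ ψ ∏ u_i^{a_i} dμ`, the subject of the problem.

The functions are sorted into classes `κ`, frequencies of different classes being separated
(`λ_j / λ_i → 0` if `κ i < κ j`); nothing is assumed inside a class, and there can be just one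
class. The theorem: THE JOINT GAUSSIAN MOMENTS ARE FORCED BY UPPER BOUNDS UP TO CONSTANTS, CLASS BY
CLASS. If, with one weight `ψ`, for each class the polynomials `Q` in the values of the functions of
this class at points of small discs `U i` satisfy `limsup |∫ ψ Q dμ|² ≤ C E Q²` (`E` for independent
random waves), then `∫ χ ∏ u_i^{a_i} dμ → ∏ C_{a_i} ∫ χ dμ` for all exponents and all test functions
`χ` supported in `{ψ > 0}`; no further bounds of moments are needed. So the multi-point form of the
conjecture is equivalent to upper bounds up to constants for the classes; for separated frequencies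
these are upper bounds for the single forms.

Proof idea. The bound gives moments of order `2m` which grow slowly enough to replace polynomials by
trigonometric sums (Taylor's formula). Then the argument of `JointRandomWaves` (Riesz' theorem,
second moment asymptotics, asymptotic invariance under simultaneous translations, mixing) with the
weight `ψ` gives the joint limit laws, and moments converge by uniform integrability.
-/

set_option autoImplicit false
open MeasureTheory Filter Topology Complex ProbabilityTheory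
open scoped ContDiff ENNReal

namespace Pool.Agent.Results.MP_a28cf0_nt.JointPolynomialBounds

open Pool.Agent.W745.RW (TF lap)
open Pool.Agent.N661.BR (MW IsRandomWave)
open Pool.Agent.N661.BH (HP IsQuantumErgodic)
open Pool.Agent.H992.PM (jpMean)

/-- **Joint Gaussian moments from upper bounds up to constants.** Let `u_0, …, u_d` be sequences of
real eigenfunctions on the hyperbolic plane with eigenvalues `λ_i → ∞`, quantum ergodic over the open
set `Ω` of finite area, `γ` the law of the random wave, `U i` nonempty open subsets of the plane, and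
`κ` classes with `λ_j / λ_i → 0` if `κ i < κ j`. (1) Let `ψ ≥ 0` be a test function such that for
each class `a` there is a constant `C` such that for all polynomials `Q` in the values of the
functions of the class `a` at points of `U i`, `limsup |∫ ψ Q dμ|² ≤ C E Q²`, `E` for independent
random waves. Then for all test functions `χ` supported in `{ψ > 0}` the means `∫ χ Q dμ` converge
to `E Q ∫ χ dμ` for all polynomials `Q` in all values, and `∫ χ ∏ u_i^{a_i} dμ → ∏ C_{a_i} ∫ χ dμ`
for all exponents. (2) The following are equivalent: for every test function `ψ ≥ 0` and every class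
there is such a constant; for all test functions `χ` and all polynomials in all values the means
`∫ χ Q dμ` converge to `E Q ∫ χ dμ`. -/
theorem result (d : ℕ) (Ω : Set ℂ) (hΩ : IsOpen Ω) (hHP : Ω ⊆ HP) (hne : Ω.Nonempty)
    (hA : IntegrableOn (fun z : ℂ => 1 / z.im ^ 2) Ω)
    (lam : Fin (d + 1) → ℕ → ℝ) (hpos : ∀ i n, 0 < lam i n)
    (hlam : ∀ i, Tendsto (lam i) atTop atTop)
    (u : Fin (d + 1) → ℕ → ℂ → ℝ) (hu : ∀ i n, ContDiffOn ℝ ∞ (u i n) HP)
    (heq : ∀ i n, ∀ z ∈ HP, z.im ^ 2 * lap (u i n) z + lam i n * u i n z = 0)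
    (hqe : ∀ i, IsQuantumErgodic Ω (lam i) (u i))
    (γ : Measure MW) (hγp : IsProbabilityMeasure γ) (hγ : IsRandomWave γ)
    (U : Fin (d + 1) → Set ℂ) (hU : ∀ i, IsOpen (U i)) (hUne : ∀ i, (U i).Nonempty)
    (κ : Fin (d + 1) → ℕ)
    (hκ : ∀ i j, κ i < κ j → Tendsto (fun n => lam j n / lam i n) atTop (𝓝 0)) :
    (∀ ψ, TF Ω ψ → (∀ z, 0 ≤ ψ z) →
      (∀ a : ℕ, ∃ C : ℝ, ∀ (k : ℕ) (w : Fin (d + 1) → Fin k → ℂ)
        (Q : MvPolynomial (Fin (d + 1) × Fin k) ℝ),
        (∀ i j, w i j ∈ U i) → (∀ q ∈ Q.vars, κ q.1 = a) → ∀ ε : ℝ, 0 < ε → ∀ᶠ n in atTop,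
          jpMean Ω ψ (fun i => lam i n) (fun i => u i n) w Q ^ 2 ≤
            C * (∫ F : Fin (d + 1) → MW,
              MvPolynomial.eval (fun q : Fin (d + 1) × Fin k => F q.1 (w q.1 q.2)) Q ^ 2
                ∂(Measure.pi fun _ => γ)) + ε) →
      ∀ χ, TF Ω χ → tsupport χ ⊆ {z | 0 < ψ z} →
        (∀ (k : ℕ) (w : Fin (d + 1) → Fin k → ℂ) (Q : MvPolynomial (Fin (d + 1) × Fin k) ℝ),
          Tendsto (fun n => jpMean Ω χ (fun i => lam i n) (fun i => u i n) w Q) atTop
            (𝓝 ((∫ F : Fin (d + 1) → MW,
              MvPolynomial.eval (fun q : Fin (d + 1) × Fin k => F q.1 (w q.1 q.2)) Q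
                ∂(Measure.pi fun _ => γ)) * ∫ z in Ω, χ z / z.im ^ 2))) ∧
        ∀ a : Fin (d + 1) → ℕ,
          Tendsto (fun n => ∫ z in Ω, χ z / z.im ^ 2 * ∏ i, u i n z ^ a i) atTop
            (𝓝 ((∏ i, ∫ x, x ^ a i ∂(gaussianReal 0 1)) * ∫ z in Ω, χ z / z.im ^ 2))) ∧
    ((∀ ψ, TF Ω ψ → (∀ z, 0 ≤ ψ z) →
      ∀ a : ℕ, ∃ C : ℝ, ∀ (k : ℕ) (w : Fin (d + 1) → Fin k → ℂ)
        (Q : MvPolynomial (Fin (d + 1) × Fin k) ℝ),
        (∀ i j, w i j ∈ U i) → (∀ q ∈ Q.vars, κ q.1 = a) → ∀ ε : ℝ, 0 < ε → ∀ᶠ n in atTop,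
          jpMean Ω ψ (fun i => lam i n) (fun i => u i n) w Q ^ 2 ≤
            C * (∫ F : Fin (d + 1) → MW,
              MvPolynomial.eval (fun q : Fin (d + 1) × Fin k => F q.1 (w q.1 q.2)) Q ^ 2
                ∂(Measure.pi fun _ => γ)) + ε) ↔
      ∀ χ, TF Ω χ → ∀ (k : ℕ) (w : Fin (d + 1) → Fin k → ℂ)
        (Q : MvPolynomial (Fin (d + 1) × Fin k) ℝ),
        Tendsto (fun n => jpMean Ω χ (fun i => lam i n) (fun i => u i n) w Q) atTop
          (𝓝 ((∫ F : Fin (d + 1) → MW,
            MvPolynomial.eval (fun q : Fin (d + 1) × Fin k => F q.1 (w q.1 q.2)) Q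
              ∂(Measure.pi fun _ => γ)) * ∫ z in Ω, χ z / z.im ^ 2))) :=
  Pool.Agent.H992.PM.jfin d Ω lam u
    (fun i => ⟨hΩ, hHP, hne, hA, hpos i, hlam i, hu i, heq i, hqe i⟩) γ hγp hγ U hU hUne κ hκ

end Pool.Agent.Results.MP_a28cf0_nt.JointPolynomialBounds
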