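import Pool.Agent.H992.SF.GFin

/-!
# Families of eigenfunctions: independence and the random wave limit (MP_a28cf0_nt)

The setting is that of the library results on MP_4fa179_mp, MP_610fe3_mp and of
`Pool.Agent.Results.MP_4fa179_mp.LocalRigidity`: `HP` is the hyperbolic plane, `Ω ⊆ HP` an open set
of finite area (a chart of the surface `X`, for instance a fundamental domain), and the eigenfunctions
are smooth real functions on `HP` (the lifts of Maass forms), each sequence quantum ergodic over `Ω`.
Hecke-Maass cusp forms of `SL₂(ℤ)` are quantum ergodic by theorems of Lindenstrauss and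
Soundararajan. `MW` is the space of all smooth real `f` on the plane with `Δf + f = 0`.
`jChar Ω ψ lam u w t` is the characteristic function, with weight `ψ`, of the joint law of the
rescaled functions `w ↦ u_i (z + y λ_i^{-1/2} w)`, `i ≤ d`, each in its own scale, at finitely many
points each, in one random orthonormal frame, at a random point `z = x + i y` of `Ω`; `TF Ω ψ` are
the test functions `ψ` (smooth, compact support in `Ω`), and `LocalLaws Ω lam u m` says that the
local laws of the sequence `u` by itself converge to the measure `m` on `MW`.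

The problem asks for the joint value distribution of `I = d + 1` orthogonal Hecke-Maass forms.

Part (3) is about ARBITRARY FAMILIES, with any frequencies. Sort the functions into classes `κ` such
that frequencies of different classes are separated (`λ_j / λ_i → 0` if `κ i < κ j`); nothing is
assumed inside a class, and there can be just one class. Then the functions converge jointly to
INDEPENDENT RANDOM WAVES, at all positions, if and only if for each class the local means of the
trigonometric sums `T` in the values of the functions of this class in small discs `U i` (fixed in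
advance) satisfy AN UPPER BOUND UP TO A CONSTANT, `limsup |mean T|² ≤ C E |T|²`, `E` for independent
random waves. If all frequencies are separated this is one condition on each function by itself.
Part (4): then all mixed moments converge as the problem asks, whenever moments of slightly higher
order are bounded on the support of `ψ`.

Part (2) needs no random wave at all: A FORM WITH AN ERGODIC LOCAL LIMIT IS ASYMPTOTICALLY
INDEPENDENT OF THE POSITION AND OF ALL FORMS OF LOWER FREQUENCY, WHATEVER THESE ARE. (Some condition
on the faster form is needed for such a statement: a fast form whose amplitude is modulated by the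
slow one is correlated with it.) Part (1) is unconditional.

Proof idea. Displacements by vectors of length `λ_i^{-1/2} x`, in the frame at `z`, move every other
function `u_j` by `(λ_j/λ_i)^{1/2} x` in its own scale up to errors which tend to zero in mean
(Caccioppoli inequality and quantum ergodicity: the rescaled functions have bounded energy), and
nearly preserve the measure, also in the random frame; so the joint law is asymptotically invariant.
The bound in (3) gives, by Riesz' theorem and along an ultrafilter, a density `h` in `L²` of the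
product of random waves, first for values in the discs, then for all values (second moments). For
the fastest function in the family and all comparable ones the invariance and mixing of the random
wave remove these functions from `h`; induction. Different classes and the position `z` are handled
in the same way, as bounded functions of position and slower functions.
-/

set_option autoImplicit false
open MeasureTheory Filter Topology Complex ProbabilityTheory
open scoped ContDiff ENNReal

namespace Pool.Agent.Results.MP_a28cf0_nt.JointRandomWaves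

open Pool.Agent.W745.RW (TF lap)
open Pool.Agent.N661.BR (MW lin IsErgodic IsRandomWave)
open Pool.Agent.N661.BH (HP area LocalLaws IsQuantumErgodic)
open Pool.Agent.H992.SF (jChar)

/-- **Independence and the random wave limit of families of eigenfunctions.** Let `u_0, …, u_d` be
sequences of real eigenfunctions on the hyperbolic plane with eigenvalues `λ_i → ∞`, quantum ergodic
over the open set `Ω` of finite area. (1) The joint local law, with position, is asymptotically
invariant under the simultaneous translations of `u_i` by `c_i x`, where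
`c_i = lim (λ_i / λ_{i₀})^{1/2}`, of all functions for which this limit is finite. (2) If
`λ_j / λ_i → 0` for `i < j`, and for `i < d` the local laws of `u_i` converge to an ergodic law
`m_i`, then `u_0, …, u_{d-1}` are asymptotically independent of each other, of the position and of
the slowest function `u_d`, about which nothing is assumed; if the local laws of `u_d` converge to
an ergodic law too, the joint local laws converge to the product of the `m_i`, at all positions.
(3) Let `γ` be the law of the random wave `F_{unif,1}`, let `U i` be nonempty open sets and `κ`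
classes with `λ_j / λ_i → 0` if `κ i < κ j`. The joint local laws converge to independent random
waves, at all positions, if and only if for each class `a` there is a constant `C` such that the
local means of all trigonometric sums `T` in values of `u_i` at points of `U i`, `κ i = a`, satisfy
`limsup |mean T|² ≤ C E |T|²`. (4) In this case, for nonnegative `ψ`, the mixed moments
`∫ ψ ∏ u_i^{a_i} dμ` converge to `∏ C_{a_i} ∫ ψ dμ` if for some `q > ∑ a_i` the `q`-th moments of the
`u_i` with weight `ψ` are bounded. -/
theorem result (d : ℕ) (Ω : Set ℂ) (hΩ : IsOpen Ω) (hHP : Ω ⊆ HP) (hne : Ω.Nonempty)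
    (hA : IntegrableOn (fun z : ℂ => 1 / z.im ^ 2) Ω)
    (lam : Fin (d + 1) → ℕ → ℝ) (hpos : ∀ i n, 0 < lam i n)
    (hlam : ∀ i, Tendsto (lam i) atTop atTop)
    (u : Fin (d + 1) → ℕ → ℂ → ℝ) (hu : ∀ i n, ContDiffOn ℝ ∞ (u i n) HP)
    (heq : ∀ i n, ∀ z ∈ HP, z.im ^ 2 * lap (u i n) z + lam i n * u i n z = 0)
    (hqe : ∀ i, IsQuantumErgodic Ω (lam i) (u i)) :
    (∀ (i₀ : Fin (d + 1)) (c : Fin (d + 1) → ℝ) (ψ : ℂ → ℝ), TF Ω ψ →
      ∀ (k : ℕ) (w : Fin (d + 1) → Fin k → ℂ) (t : Fin (d + 1) → Fin k → ℝ) (x : ℂ),
      (∀ i, t i = 0 ∨ Tendsto (fun n => √(lam i n / lam i₀ n)) atTop (𝓝 (c i))) →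
      Tendsto (fun n => jChar Ω ψ (fun i => lam i n) (fun i => u i n)
          (fun i j => w i j + (c i : ℂ) * x) t -
        jChar Ω ψ (fun i => lam i n) (fun i => u i n) w t) atTop (𝓝 0)) ∧
    ((∀ i j, i < j → Tendsto (fun n => lam j n / lam i n) atTop (𝓝 0)) →
      (∀ m : Fin d → Measure MW, (∀ i, IsProbabilityMeasure (m i)) → (∀ i, IsErgodic (m i)) →
        (∀ i : Fin d, LocalLaws Ω (lam i.castSucc) (u i.castSucc) (m i)) →
        ∀ ψ, TF Ω ψ → ∀ (k : ℕ) (w : Fin (d + 1) → Fin k → ℂ) (t : Fin (d + 1) → Fin k → ℝ),
        Tendsto (fun n => jChar Ω ψ (fun i => lam i n) (fun i => u i n) w t -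
          (∏ i : Fin d, ∫ f, Complex.exp (I * (lin (w i.castSucc) (t i.castSucc) f : ℝ)) ∂(m i)) *
            jChar Ω ψ (fun _ : Fin 1 => lam (Fin.last d) n) (fun _ => u (Fin.last d) n)
              (fun _ => w (Fin.last d)) (fun _ => t (Fin.last d))) atTop (𝓝 0)) ∧
      (∀ m : Fin (d + 1) → Measure MW, (∀ i, IsProbabilityMeasure (m i)) →
        (∀ i, IsErgodic (m i)) → (∀ i, LocalLaws Ω (lam i) (u i) (m i)) →
        ∀ ψ, TF Ω ψ → ∀ (k : ℕ) (w : Fin (d + 1) → Fin k → ℂ) (t : Fin (d + 1) → Fin k → ℝ),
        Tendsto (fun n => jChar Ω ψ (fun i => lam i n) (fun i => u i n) w t) atTop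
          (𝓝 ((∏ i, ∫ f, Complex.exp (I * (lin (w i) (t i) f : ℝ)) ∂(m i)) *
            area Ω fun z => (ψ z : ℂ))))) ∧
    ∀ γ : Measure MW, IsProbabilityMeasure γ → IsRandomWave γ →
      ∀ U : Fin (d + 1) → Set ℂ, (∀ i, IsOpen (U i)) → (∀ i, (U i).Nonempty) →
      ∀ κ : Fin (d + 1) → ℕ,
      (∀ i j, κ i < κ j → Tendsto (fun n => lam j n / lam i n) atTop (𝓝 0)) →
      ((∀ a : ℕ, ∃ C : ℝ, ∀ (n k : ℕ) (w : Fin (d + 1) → Fin k → ℂ)
          (t : Fin n → Fin (d + 1) → Fin k → ℝ) (c : Fin n → ℂ),
          (∀ i j, w i j ∈ U i) → (∀ m i, κ i ≠ a → t m i = 0) → ∀ ε : ℝ, 0 < ε → ∀ᶠ l in atTop,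
            ‖∑ m, c m * jChar Ω (fun _ => 1) (fun i => lam i l) (fun i => u i l) w (t m)‖ ^ 2 ≤
              C * (∫ F : Fin (d + 1) → MW, ‖∑ m, c m *
                Complex.exp (I * ((∑ i, lin (w i) (t m i) (F i) : ℝ) : ℂ))‖ ^ 2
                  ∂(Measure.pi fun _ => γ)) + ε) ↔
        ∀ ψ, TF Ω ψ → ∀ (k : ℕ) (w : Fin (d + 1) → Fin k → ℂ) (t : Fin (d + 1) → Fin k → ℝ),
          Tendsto (fun n => jChar Ω ψ (fun i => lam i n) (fun i => u i n) w t) atTop
            (𝓝 ((∏ i, ∫ f, Complex.exp (I * (lin (w i) (t i) f : ℝ)) ∂γ) *
              area Ω fun z => (ψ z : ℂ)))) ∧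
      ((∀ a : ℕ, ∃ C : ℝ, ∀ (n k : ℕ) (w : Fin (d + 1) → Fin k → ℂ)
          (t : Fin n → Fin (d + 1) → Fin k → ℝ) (c : Fin n → ℂ),
          (∀ i j, w i j ∈ U i) → (∀ m i, κ i ≠ a → t m i = 0) → ∀ ε : ℝ, 0 < ε → ∀ᶠ l in atTop,
            ‖∑ m, c m * jChar Ω (fun _ => 1) (fun i => lam i l) (fun i => u i l) w (t m)‖ ^ 2 ≤
              C * (∫ F : Fin (d + 1) → MW, ‖∑ m, c m *
                Complex.exp (I * ((∑ i, lin (w i) (t m i) (F i) : ℝ) : ℂ))‖ ^ 2
                  ∂(Measure.pi fun _ => γ)) + ε) →
        ∀ ψ, TF Ω ψ → (∀ z, 0 ≤ ψ z) → ∀ a : Fin (d + 1) → ℕ,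
          (∃ q C : ℝ, (∑ i, a i : ℕ) < q ∧ ∀ i, ∀ᶠ n in atTop,
            ∫ z in Ω, ψ z / z.im ^ 2 * |u i n z| ^ q ≤ C) →
          Tendsto (fun n => ∫ z in Ω, ψ z / z.im ^ 2 * ∏ i, u i n z ^ a i) atTop
            (𝓝 ((∏ i, ∫ x, x ^ a i ∂(gaussianReal 0 1)) * ∫ z in Ω, ψ z / z.im ^ 2))) :=
  Pool.Agent.H992.SF.gfin d Ω lam u
    (fun i => ⟨hΩ, hHP, hne, hA, hpos i, hlam i, hu i, heq i, hqe i⟩)

end Pool.Agent.Results.MP_a28cf0_nt.JointRandomWaves
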